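import Mathlib

set_option autoImplicit false

namespace Pool.Agent.Results.MP_24f62a_co.Linear

open SimpleGraph Finset

/-- A legal move of a player with bias `k` when `F` is the set of unclaimed edges: exactly
(strict rules) or at least (monotone rules) `min k |F|` unclaimed edges. -/
def Legal {n : ℕ} (mono : Bool) (k : ℕ) (F S : Finset (Sym2 (Fin n))) : Prop :=
  S ⊆ F ∧ (if mono then min k F.card ≤ S.card else S.card = min k F.card)

/-- The graph with edge set `A` has at most one cycle: any two cycles have the same edges. -/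
def OneCycle {n : ℕ} (A : Finset (Sym2 (Fin n))) : Prop :=
  ∀ (u v : Fin n) (p : (fromEdgeSet (A : Set (Sym2 (Fin n)))).Walk u u)
    (q : (fromEdgeSet (A : Set (Sym2 (Fin n)))).Walk v v),
    p.IsCycle → q.IsCycle → ∀ e, e ∈ p.edges ↔ e ∈ q.edges

/-- Avoider (edges `A`, to move, unclaimed edges `F`) can force at most one cycle at the end. -/
inductive AvWins {n : ℕ} (mono : Bool) (b : ℕ) :
    Finset (Sym2 (Fin n)) → Finset (Sym2 (Fin n)) → Prop
  | done (A : Finset (Sym2 (Fin n))) : OneCycle A → AvWins mono b A ∅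
  | step (A F S : Finset (Sym2 (Fin n))) : F.Nonempty → Legal mono 1 F S →
      (∀ T, Legal mono b (F \ S) T → AvWins mono b (A ∪ S) ((F \ S) \ T)) → AvWins mono b A F

/-! ### arithmetic -/

def r (k : ℕ) (S : List ℕ) : ℕ := S.countP (fun s => decide (k ≤ s))
def P (k : ℕ) (S : List ℕ) : ℕ := (S.map (fun s => if k ≤ s then s ^ 2 else 0)).sum

lemma r_cons (k s : ℕ) (S : List ℕ) : r k (s :: S) = r k S + if k ≤ s then 1 else 0 := by
  simp [r, List.countP_cons]

lemma P_cons (k s : ℕ) (S : List ℕ) : P k (s :: S) = (if k ≤ s then s ^ 2 else 0) + P k S := by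
  simp [P]

lemma P_split (k : ℕ) (S : List ℕ) : P k S ≤ 4 * k ^ 2 * r k S + P (2 * k) S := by
  induction S with
  | nil => simp [P]
  | cons s S ih =>
    rw [P_cons, P_cons, r_cons]
    by_cases h1 : k ≤ s
    · by_cases h2 : 2 * k ≤ s
      · simp only [h1, h2, if_true]; nlinarith
      · simp only [h1, h2, if_true, if_false]
        have : s ^ 2 ≤ (2 * k) ^ 2 := Nat.pow_le_pow_left (by omega) 2
        nlinarith
    · simp only [h1, if_false, Nat.add_zero]; omega

lemma P_zero (k : ℕ) (S : List ℕ) (h : r k S = 0) : P k S = 0 := by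
  induction S with
  | nil => simp [P]
  | cons s S ih =>
    rw [r_cons] at h
    rw [P_cons]
    by_cases h1 : k ≤ s
    · simp [h1] at h
    · simp only [h1, if_false] at h ⊢; simpa using ih h

lemma r_le (k : ℕ) (S : List ℕ) : r k S ≤ S.length := List.countP_le_length

lemma P_bound (S : List ℕ)
    (h3 : ∀ k, 2 ≤ k → 1 ≤ r (2 * k) S → 16 * r (2 * k) S ≤ r k S + 16)
    (h5 : ∀ k, 2 ≤ k → 1 ≤ r (2 * k) S → r (2 * k) S + 1 ≤ r k S) :
    ∀ d k, 2 ≤ k → (∀ s ∈ S, s < k + d) → 1 ≤ r k S → P k S + 16 * k ^ 2 ≤ 20 * k ^ 2 * r k S := by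
  intro d
  induction d with
  | zero =>
    intro k _ hs h
    have : r k S = 0 := by
      unfold r
      rw [List.countP_eq_zero]
      intro s h'
      have := hs s h'
      simp; omega
    omega
  | succ d ih =>
    intro k hk hs h
    have h1 := P_split k S
    by_cases h2 : 1 ≤ r (2 * k) S
    · have h4 := ih (2 * k) (by omega) (fun s h' => by have := hs s h'; omega) h2
      have h6 := h3 k hk h2
      have h7 := h5 k hk h2
      have h8 : 5 * r (2 * k) S ≤ r k S + 3 := by omega
      have h9 := Nat.mul_le_mul_left (16 * k ^ 2) h8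
      nlinarith
    · have h4 := P_zero (2 * k) S (by omega)
      have h9 := Nat.mul_le_mul_left (16 * k ^ 2) h
      nlinarith

/-! ### graphs -/

lemma one_of_acyclic {n : ℕ} (A : Finset (Sym2 (Fin n)))
    (h : (fromEdgeSet (A : Set (Sym2 (Fin n)))).IsAcyclic) : OneCycle A :=
  fun _ _ p _ hp _ => (h p hp).elim

lemma reach_step {V : Type} {H : SimpleGraph V} {a b x y : V} (hab : H.Reachable a b)
    {G : SimpleGraph V} (hG : ∀ u v, G.Adj u v → H.Adj u v ∨ s(u, v) = s(a, b))
    (h : G.Reachable x y) : H.Reachable x y := by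
  obtain ⟨p⟩ := h
  induction p with
  | nil => rfl
  | cons h p ih =>
    refine Reachable.trans ?_ ih
    rcases hG _ _ h with h' | h'
    · exact h'.reachable
    · rcases Sym2.eq_iff.1 h' with ⟨rfl, rfl⟩ | ⟨rfl, rfl⟩
      · exact hab
      · exact hab.symm

lemma cyc_sub {V : Type} {H G : SimpleGraph V} (hH : H.IsAcyclic) (e : Sym2 V)
    (hG : ∀ u v, G.Adj u v → H.Adj u v ∨ s(u, v) = e) {u v : V} (p : G.Walk u u) (q : G.Walk v v)
    (hp : p.IsCycle) (hq : q.IsCycle) (f : Sym2 V) (hf : f ∈ p.edges) : f ∈ q.edges := by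
  classical
  by_contra hfq
  have heq : e ∈ q.edges := by
    by_contra he
    refine hH (q.transfer H ?_) (hq.transfer _)
    intro g hg
    induction g with
    | h x y =>
      rcases hG x y (q.adj_of_mem_edges hg) with h | h
      · exact h
      · exact (he (h ▸ hg)).elim
  have hfe : f ≠ e := fun h => hfq (h ▸ heq)
  induction e with
  | h a b =>
  induction f with
  | h x y =>
    have hxy : H.Adj x y := by
      rcases hG x y (p.adj_of_mem_edges hf) with h | h
      · exact h
      · exact (hfe h).elim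
    have h1 : (G.deleteEdges {s(x, y)}).Reachable x y :=
      (adj_and_reachable_delete_edges_iff_exists_cycle.2 ⟨u, p, hp, hf⟩).2
    have hq' : ∀ g ∈ q.edges, g ∈ (G.deleteEdges {s(x, y)}).edgeSet := by
      intro g hg
      rw [edgeSet_deleteEdges]
      exact ⟨q.edges_subset_edgeSet hg, fun h => hfq ((Set.mem_singleton_iff.1 h) ▸ hg)⟩
    have h2 : ((G.deleteEdges {s(x, y)}).deleteEdges {s(a, b)}).Reachable a b :=
      (adj_and_reachable_delete_edges_iff_exists_cycle.2
        ⟨v, q.transfer _ hq', hq.transfer _, by simpa using heq⟩).2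
    have h3 : (H.deleteEdges {s(x, y)}).Reachable a b := by
      refine h2.mono ?_
      intro s t hst
      simp only [deleteEdges_adj, Set.mem_singleton_iff] at hst ⊢
      rcases hG s t hst.1.1 with h | h
      · exact ⟨h, hst.1.2⟩
      · exact (hst.2 h).elim
    have h4 : (H.deleteEdges {s(x, y)}).Reachable x y := by
      refine reach_step h3 ?_ h1
      intro s t hst
      simp only [deleteEdges_adj, Set.mem_singleton_iff] at hst ⊢
      rcases hG s t hst.1 with h | h
      · exact Or.inl ⟨h, hst.2⟩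
      · exact Or.inr h
    exact (isAcyclic_iff_forall_adj_isBridge.1 hH hxy) h4

lemma one_of_insert {n : ℕ} (A : Finset (Sym2 (Fin n))) (e : Sym2 (Fin n))
    (h : (fromEdgeSet (A : Set (Sym2 (Fin n)))).IsAcyclic) : OneCycle (A ∪ {e}) := by
  have hG : ∀ u v, (fromEdgeSet ((A ∪ {e} : Finset _) : Set (Sym2 (Fin n)))).Adj u v →
      (fromEdgeSet (A : Set (Sym2 (Fin n)))).Adj u v ∨ s(u, v) = e := by
    intro u v huv
    simp only [fromEdgeSet_adj, coe_union, Set.mem_union, mem_coe, mem_singleton] at huv ⊢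
    rcases huv with ⟨h | h, h'⟩
    · exact Or.inl ⟨h, h'⟩
    · exact Or.inr h
  intro u v p q hp hq f
  exact ⟨cyc_sub h e hG p q hp hq f, cyc_sub h e hG q p hq hp f⟩

/-! ### the invariant -/

structure Inv {n : ℕ} (b : ℕ) (A F : Finset (Sym2 (Fin n))) (c : Fin n → Finset (Fin n))
    (S : List ℕ) : Prop where
  ac : (fromEdgeSet (A : Set (Sym2 (Fin n)))).IsAcyclic
  adj : ∀ u v, s(u, v) ∈ A → v ∈ c u
  self : ∀ u, u ∈ c u
  eq : ∀ u v, v ∈ c u → c v = c u
  i1 : ∀ u v, v ∉ c u → ((c u).filter (fun x => s(x, v) ∈ F)).card ≤ 2 * (c v).card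
  i3 : ∀ k, 2 ≤ k → 1 ≤ r (2 * k) S → r (2 * k) S * b + F.card ≤ 243 * n * r k S + b
  i4 : ∀ k, 2 ≤ k → ((univ.image c).filter (fun C => k ≤ C.card)).card ≤ r k S
  i5 : ∀ k, 2 ≤ k → 1 ≤ r (2 * k) S → r (2 * k) S + 1 ≤ r k S
  i6 : ∑ v, (c v).card ≤ n + P 2 S
  i7 : S.length * b + F.card ≤ n ^ 2

variable {n b : ℕ} {A F : Finset (Sym2 (Fin n))} {c : Fin n → Finset (Fin n)} {S : List ℕ}

lemma Inv.Q (h : Inv b A F c S) (hn : 1 ≤ n) (hb : 4000 * n ≤ b) : ∑ v, (c v).card ≤ 81 * n := by
  have hl : S.length ≤ n := by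
    by_contra hl
    have h1 := h.i7
    have : (n + 1) * (4000 * n) ≤ S.length * b := Nat.mul_le_mul (by omega) hb
    nlinarith
  have h3 : ∀ k, 2 ≤ k → 1 ≤ r (2 * k) S → 16 * r (2 * k) S ≤ r k S + 16 := by
    intro k hk h1
    have h2 := h.i3 k hk h1
    obtain ⟨m, hm⟩ : ∃ m, r (2 * k) S = m + 1 := ⟨r (2 * k) S - 1, by omega⟩
    rw [hm] at h2 ⊢
    have h4 : m * (4000 * n) ≤ m * b := Nat.mul_le_mul_left _ hb
    have h5 : n * (4000 * m) ≤ n * (243 * r k S) := by nlinarith
    have h6 := Nat.le_of_mul_le_mul_left h5 hn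
    omega
  have h6 := h.i6
  by_cases h0 : 1 ≤ r 2 S
  · have := P_bound S h3 h.i5 (S.sum + 1) 2 le_rfl
      (fun s hs => by have := List.le_sum_of_mem hs; omega) h0
    have h7 := r_le 2 S
    omega
  · have := P_zero 2 S (by omega)
    omega

lemma Inv.count (h : Inv b A F c S) (k : ℕ)
    (hk : ∀ u v, s(u, v) ∈ F → v ∉ c u → 2 * k ≤ (c u).card + (c v).card) :
    F.card ≤ ∑ v, (c v).card +
      ((univ.image c).filter (fun C => k ≤ C.card)).card * (2 * ∑ v, (c v).card) := by
  classical
  set B := (univ.image c).filter (fun C => k ≤ C.card) with hB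
  have hsub : F ⊆ (univ.biUnion (fun x => (c x).image (fun y => s(x, y)))) ∪
      B.biUnion (fun C => univ.biUnion (fun v =>
        (C.filter (fun x => s(x, v) ∈ F ∧ v ∉ C)).image (fun x => s(x, v)))) := by
    intro e he
    induction e with
    | h x y =>
      simp only [mem_union, mem_biUnion, mem_univ, true_and, mem_image, mem_filter]
      by_cases hy : y ∈ c x
      · exact Or.inl ⟨x, y, hy, rfl⟩
      · right
        have hx : x ∉ c y := fun hx => hy (h.eq _ _ hx ▸ h.self y)
        have := hk x y he hy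
        by_cases h1 : k ≤ (c x).card
        · exact ⟨c x, by simp [hB, h1], y, x, ⟨h.self x, he, hy⟩, rfl⟩
        · refine ⟨c y, ?_, x, y, ⟨h.self y, Sym2.eq_swap ▸ he, hx⟩, Sym2.eq_swap⟩
          simp only [hB, mem_filter, mem_image, mem_univ, true_and]
          exact ⟨⟨y, rfl⟩, by omega⟩
  refine (card_le_card hsub).trans ((card_union_le _ _).trans (Nat.add_le_add ?_ ?_))
  · exact card_biUnion_le.trans (sum_le_sum fun x _ => card_image_le)
  · refine card_biUnion_le.trans ?_
    rw [← smul_eq_mul]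
    refine sum_le_card_nsmul _ _ _ ?_
    intro C hC
    refine card_biUnion_le.trans ?_
    rw [mul_sum]
    refine sum_le_sum fun v _ => card_image_le.trans ?_
    obtain ⟨u, -, rfl⟩ := mem_image.1 (mem_filter.1 hC).1
    by_cases hv : v ∈ c u
    · simp [hv]
    · simpa [hv] using h.i1 u v hv

lemma Inv.reach (h : Inv b A F c S) {u v : Fin n}
    (huv : (fromEdgeSet (A : Set (Sym2 (Fin n)))).Reachable u v) : v ∈ c u := by
  obtain ⟨p⟩ := huv
  induction p with
  | nil => exact h.self _
  | cons h' p ih =>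
    have := h.adj _ _ ((fromEdgeSet_adj _).1 h').1
    exact h.eq _ _ this ▸ ih

lemma Inv.ac' (h : Inv b A F c S) {u v : Fin n} (hv : v ∉ c u) :
    (fromEdgeSet ((A ∪ {s(u, v)} : Finset _) : Set (Sym2 (Fin n)))).IsAcyclic := by
  have := h.ac.sup_edge_of_not_reachable (fun h' => hv (h.reach h'))
  rw [coe_union, fromEdgeSet_union, coe_singleton]
  exact this

lemma Inv.next (h : Inv b A F c S) (hn : 1 ≤ n) (hb : 4000 * n ≤ b) {u0 v0 : Fin n}
    (hv : v0 ∉ c u0) (hle : (c v0).card ≤ (c u0).card)
    (hmin : ∀ u v, s(u, v) ∈ F → v ∉ c u → (c u0).card + (c v0).card ≤ (c u).card + (c v).card)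
    {F' : Finset (Sym2 (Fin n))} (hF : F' ⊆ F) (hcard : F'.card + b ≤ F.card) :
    Inv b (A ∪ {s(u0, v0)}) F' (fun x => if x ∈ c u0 ∪ c v0 then c u0 ∪ c v0 else c x)
      (((c u0).card + (c v0).card) :: S) := by
  classical
  set M := c u0 ∪ c v0 with hM
  set s := (c u0).card + (c v0).card with hs
  have hMs : M.card ≤ s := card_union_le _ _
  have hsub : ∀ x ∈ M, c x ⊆ M := by
    intro x hx
    rcases mem_union.1 hx with hx | hx
    · rw [h.eq _ _ hx]; exact subset_union_left
    · rw [h.eq _ _ hx]; exact subset_union_right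
  have hmono : ∀ x, c x ⊆ (if x ∈ M then M else c x) := by
    intro x
    split_ifs with hx
    · exact hsub x hx
    · exact subset_rfl
  have hQ := h.Q hn hb
  refine ⟨h.ac' hv, ?_, fun u => hmono u (h.self u), ?_, ?_, ?_, ?_, ?_, ?_, ?_⟩
  · intro u v huv
    rcases mem_union.1 huv with huv | huv
    · exact hmono u (h.adj u v huv)
    · have hu0 : u0 ∈ M := mem_union_left _ (h.self _)
      have hv0 : v0 ∈ M := mem_union_right _ (h.self _)
      rcases Sym2.eq_iff.1 (mem_singleton.1 huv) with ⟨rfl, rfl⟩ | ⟨rfl, rfl⟩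
      · simp [hu0, hv0]
      · simp [hu0, hv0]
  · intro u v huv
    by_cases hu : u ∈ M
    · simp only [hu, if_true] at huv ⊢
      simp [huv]
    · simp only [hu, if_false] at huv ⊢
      have h1 := h.eq _ _ huv
      have hv' : v ∉ M := fun hv' => hu (hsub v hv' (h1 ▸ h.self u))
      simp [hv', h1]
  · intro u v huv
    by_cases hu : u ∈ M
    · simp only [hu, if_true] at huv ⊢
      simp only [huv, if_false]
      by_cases hx : ∃ x ∈ c v0, s(x, v) ∈ F
      · obtain ⟨x, hx, hxF⟩ := hx
        have h1 := h.eq _ _ hx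
        have h2 := hmin x v hxF (by rw [h1]; exact fun h' => huv (mem_union_right _ h'))
        rw [h1] at h2
        have h3 := card_filter_le M (fun x => s(x, v) ∈ F')
        omega
      · refine le_trans (card_le_card ?_) (h.i1 u0 v (fun h' => huv (mem_union_left _ h')))
        intro x hx'
        rw [mem_filter] at hx' ⊢
        rcases mem_union.1 hx'.1 with h1 | h1
        · exact ⟨h1, hF hx'.2⟩
        · exact (hx ⟨x, h1, hF hx'.2⟩).elim
    · simp only [hu, if_false] at huv ⊢
      have h1 := h.i1 u v huv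
      have h2 := card_le_card (hmono v)
      have h3 : ((c u).filter (fun x => s(x, v) ∈ F')).card ≤
          ((c u).filter (fun x => s(x, v) ∈ F)).card :=
        card_le_card (monotone_filter_right _ (fun x _ hx => hF hx))
      omega
  · intro k hk h1
    rw [r_cons] at h1
    rw [r_cons, r_cons]
    by_cases h0 : 1 ≤ r (2 * k) S
    · have h2 := h.i3 k hk h0
      have h3 : 243 * n * r k S ≤ 243 * n * (r k S + if k ≤ s then 1 else 0) :=
        Nat.mul_le_mul_left _ (by omega)
      have h4 : (r (2 * k) S + if 2 * k ≤ s then 1 else 0) * b ≤ (r (2 * k) S + 1) * b :=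
        Nat.mul_le_mul_right _ (by split_ifs <;> omega)
      nlinarith
    · have h2 : 2 * k ≤ s := by
        by_contra h2
        simp only [h2, if_false] at h1
        omega
      have h3 : k ≤ s := by omega
      have h4 : r (2 * k) S = 0 := by omega
      simp only [h2, h3, if_true, h4]
      have h5 := h.count k (fun u v huv hv' => h2.trans (hmin u v huv hv'))
      have h6 := h.i4 k hk
      have h7 : ((univ.image c).filter (fun C => k ≤ C.card)).card * (2 * ∑ v, (c v).card) ≤
          r k S * (2 * (81 * n)) := Nat.mul_le_mul h6 (by omega)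
      nlinarith
  · intro k hk
    rw [r_cons]
    have h1 := h.i4 k hk
    by_cases h2 : k ≤ s
    · simp only [h2, if_true]
      refine le_trans (card_le_card (t := insert M ((univ.image c).filter (fun C => k ≤ C.card))) ?_)
        ((card_insert_le _ _).trans (by omega))
      intro C hC
      simp only [mem_filter, mem_image, mem_univ, true_and, mem_insert] at hC ⊢
      obtain ⟨⟨x, rfl⟩, h3⟩ := hC
      by_cases hx : x ∈ M
      · simp [hx]
      · simp only [hx, if_false] at h3 ⊢
        exact Or.inr ⟨⟨x, rfl⟩, h3⟩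
    · simp only [h2, if_false]
      refine le_trans (card_le_card ?_) h1
      intro C hC
      simp only [mem_filter, mem_image, mem_univ, true_and] at hC ⊢
      obtain ⟨⟨x, rfl⟩, h3⟩ := hC
      by_cases hx : x ∈ M
      · simp only [hx, if_true] at h3; omega
      · simp only [hx, if_false] at h3 ⊢
        exact ⟨⟨x, rfl⟩, h3⟩
  · intro k hk h1
    rw [r_cons] at h1
    rw [r_cons, r_cons]
    by_cases h2 : 2 * k ≤ s
    · have h3 : k ≤ s := by omega
      simp only [h2, h3, if_true]
      by_cases h0 : 1 ≤ r (2 * k) S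
      · have := h.i5 k hk h0; omega
      · have h4 := h.i4 k hk
        have h5 : 0 < ((univ.image c).filter (fun C => k ≤ C.card)).card := by
          refine card_pos.2 ⟨c u0, ?_⟩
          simp only [mem_filter, mem_image, mem_univ, true_and]
          exact ⟨⟨u0, rfl⟩, by omega⟩
        omega
    · simp only [h2, if_false] at h1 ⊢
      have := h.i5 k hk (by omega)
      omega
  · rw [P_cons]
    have h1 : 2 ≤ s := by
      have := card_pos.2 ⟨u0, h.self u0⟩
      have := card_pos.2 ⟨v0, h.self v0⟩
      omega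
    simp only [h1, if_true]
    have h2 := h.i6
    have h3 : ∑ v, (if v ∈ M then M else c v).card ≤
        ∑ v, ((if v ∈ M then s else 0) + (c v).card) := by
      refine sum_le_sum fun v _ => ?_
      split_ifs <;> omega
    rw [sum_add_distrib, sum_ite_mem, univ_inter, sum_const, smul_eq_mul] at h3
    have h4 : M.card * s ≤ s * s := Nat.mul_le_mul_right _ hMs
    nlinarith
  · have := h.i7
    simp only [List.length_cons]
    nlinarith

lemma legal_one (mono : Bool) {e : Sym2 (Fin n)} (he : e ∈ F) : Legal mono 1 F {e} := by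
  have : 1 ≤ F.card := card_pos.2 ⟨e, he⟩
  refine ⟨by simpa using he, ?_⟩
  cases mono <;> simp [this]

lemma legal_cases {mono : Bool} {T : Finset (Sym2 (Fin n))} (h : Legal mono b F T) :
    F \ T = ∅ ∨ (b ≤ F.card ∧ (F \ T).card + b ≤ F.card) := by
  have h1 : min b F.card ≤ T.card := by
    have := h.2
    cases mono
    · exact le_of_eq (by simpa using this.symm)
    · simpa using this
  have h2 := card_sdiff_add_card_eq_card h.1
  by_cases h3 : b ≤ F.card
  · right; rw [min_eq_left h3] at h1; omega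
  · left; rw [min_eq_right (by omega)] at h1
    exact card_eq_zero.1 (by omega)

lemma main (mono : Bool) (hn : 1 ≤ n) (hb : 4000 * n ≤ b) :
    ∀ (m : ℕ) (A F : Finset (Sym2 (Fin n))) (c : Fin n → Finset (Fin n)) (S : List ℕ),
      F.card ≤ m → Inv b A F c S → AvWins mono b A F := by
  classical
  intro m
  induction m with
  | zero =>
    intro A F c S hm h
    rw [card_eq_zero.1 (Nat.le_zero.1 hm)]
    exact .done A (one_of_acyclic A h.ac)
  | succ m ih =>
    intro A F c S hm h
    rcases F.eq_empty_or_nonempty with rfl | hF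
    · exact .done A (one_of_acyclic A h.ac)
    by_cases hx : ∃ u v, s(u, v) ∈ F ∧ v ∉ c u
    · obtain ⟨⟨u1, v1⟩, hmem, hmin⟩ := exists_min_image
        (univ.filter (fun p : Fin n × Fin n => s(p.1, p.2) ∈ F ∧ p.2 ∉ c p.1))
        (fun p => (c p.1).card + (c p.2).card)
        (by obtain ⟨u, v, huv⟩ := hx; exact ⟨(u, v), by simpa using huv⟩)
      simp only [mem_filter, mem_univ, true_and, Prod.forall] at hmem hmin
      obtain ⟨u0, v0, h1, h2, h3, h4⟩ : ∃ u0 v0, s(u0, v0) ∈ F ∧ v0 ∉ c u0 ∧
          (c v0).card ≤ (c u0).card ∧ ∀ u v, s(u, v) ∈ F → v ∉ c u →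
            (c u0).card + (c v0).card ≤ (c u).card + (c v).card := by
        by_cases h5 : (c v1).card ≤ (c u1).card
        · exact ⟨u1, v1, hmem.1, hmem.2, h5, fun u v a a' => hmin u v ⟨a, a'⟩⟩
        · refine ⟨v1, u1, Sym2.eq_swap ▸ hmem.1, fun hx => hmem.2 (h.eq _ _ hx ▸ h.self v1),
            by omega, fun u v a a' => ?_⟩
          have := hmin u v ⟨a, a'⟩
          omega
      refine .step A F {s(u0, v0)} hF (legal_one mono h1) fun T hT => ?_
      rcases legal_cases hT with h5 | h5
      · rw [h5]; exact .done _ (one_of_acyclic _ (h.ac' h2))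
      · have h6 : (F \ {s(u0, v0)}).card ≤ F.card := card_le_card sdiff_subset
        exact ih _ _ _ _ (by omega)
          (h.next hn hb h2 h3 h4 (sdiff_subset.trans sdiff_subset) (by omega))
    · obtain ⟨e, he⟩ := hF
      refine .step A F {e} ⟨e, he⟩ (legal_one mono he) fun T hT => ?_
      rcases legal_cases hT with h5 | h5
      · rw [h5]; exact .done _ (one_of_insert A e h.ac)
      · exfalso
        have h6 : (F \ {e}).card ≤ F.card := card_le_card sdiff_subset
        have h7 := h.count (n + 1) (fun u v a a' => (hx ⟨u, v, a, a'⟩).elim)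
        have h8 : ((univ.image c).filter (fun C => n + 1 ≤ C.card)).card = 0 := by
          rw [card_eq_zero, filter_eq_empty_iff]
          intro C _
          have := card_le_univ C
          simp only [Fintype.card_fin] at this
          omega
        have h9 := h.Q hn hb
        rw [h8] at h7
        omega

/-- For bias `b ≥ 4000 n`, Avoider creates at most one cycle, under both rule sets. -/
theorem result : ∀ (mono : Bool) (n b : ℕ), 1 ≤ n → 4000 * n ≤ b →
    AvWins mono b ∅ (⊤ : SimpleGraph (Fin n)).edgeFinset := by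
  intro mono n b hn hb
  refine main mono hn hb _ _ _ (fun x => {x}) [] le_rfl
    ⟨by simp, by simp, by simp, by simp, ?_, by simp [r], ?_, by simp [r], by simp, ?_⟩
  · intro u v _
    exact (card_filter_le _ _).trans (by simp)
  · intro k hk
    simp only [r, List.countP_nil, Nat.le_zero, card_eq_zero, filter_eq_empty_iff, mem_image,
      mem_univ, true_and]
    rintro C ⟨x, rfl⟩
    simp; omega
  · rw [card_edgeFinset_top_eq_card_choose_two]
    simpa using Nat.choose_le_pow n 2

end Pool.Agent.Results.MP_24f62a_co.Linear
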